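import Pool.Agent.H53.HR.Targets

/-!
Module SMP of the board hr (MP_f2da09_co): choice of the columns.
-/

namespace Pool.Agent.H54.HR

open Finset
open Pool.Agent.H53.HR

theorem card_nbhd {V : Type} [DecidableEq V] (G : SimpleGraph V) (B U : Finset V) (η h : ℕ)
    (hUB : U ⊆ B) (hU : ∀ I ⊆ U, Indep G I → h * #I < #U) (v : V)
    [DecidablePred (fun y => G.Adj v y)]
    (hv : HallLE G (B.filter (fun y => G.Adj v y)) η) :
    h * #(U.filter (fun y => G.Adj v y)) ≤ η * #U := by
  obtain ⟨I, hI1, hI2, hI3⟩ := hv (U.filter (fun y => G.Adj v y)) (by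
    intro y hy
    rw [mem_filter] at hy ⊢
    exact ⟨hUB hy.1, hy.2⟩)
  have h1 := hU I (hI1.trans (filter_subset _ _)) hI2
  calc h * #(U.filter (fun y => G.Adj v y)) ≤ h * (η * #I) := Nat.mul_le_mul_left _ hI3
    _ = η * (h * #I) := by ring
    _ ≤ η * #U := Nat.mul_le_mul_left _ h1.le

theorem smp (hD : DIG) : SMP := by
  classical
  intro V _ G B η h k m p hη hm hh hB hn hp
  unfold HallLE at hB
  push Not at hB
  obtain ⟨U, hUB, hU⟩ := hB
  have hUne : 0 < #U := by
    have := hU ∅ (empty_subset _) (by intro x hx; simp at hx)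
    simpa using this
  obtain ⟨u, hu⟩ := card_pos.1 hUne
  have hhU : h < #U := by
    have := hU {u} (by simpa using hu) (by
      intro x hx y hy
      rw [mem_singleton] at hx hy
      subst hx hy
      exact G.loopless.irrefl _)
    simpa using this
  have hX1 : 1 ≤ (k + 1) * η * m := Nat.mul_pos (Nat.mul_pos (Nat.succ_pos _) hη) hm
  have hh' : 4 * ((k + 1) * η * m) ≤ h := by
    calc 4 * ((k + 1) * η * m) = 4 * (k + 1) * η * m := by ring
      _ ≤ h := hh
  have hh0 : 0 < h := by omega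
  set d := (k + 1) * η * #U / h with hd
  have hdh : h * d ≤ (k + 1) * η * #U := Nat.mul_div_le _ _
  have hout : ∀ x ∈ U, #(U.filter (fun y => y ≠ x ∧ (G.Adj x y ∨ ∃ l, G.Adj (p l x) y))) ≤ d := by
    intro x hx
    rw [hd, Nat.le_div_iff_mul_le hh0]
    have hsub : U.filter (fun y => y ≠ x ∧ (G.Adj x y ∨ ∃ l, G.Adj (p l x) y)) ⊆
        U.filter (fun y => G.Adj x y) ∪
          (univ : Finset (Fin k)).biUnion (fun l => U.filter (fun y => G.Adj (p l x) y)) := by
      intro y hy
      rw [mem_filter] at hy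
      rw [mem_union, mem_biUnion]
      rcases hy.2.2 with h1 | ⟨l, h1⟩
      · exact Or.inl (mem_filter.2 ⟨hy.1, h1⟩)
      · exact Or.inr ⟨l, mem_univ _, mem_filter.2 ⟨hy.1, h1⟩⟩
    have hc : #(U.filter (fun y => y ≠ x ∧ (G.Adj x y ∨ ∃ l, G.Adj (p l x) y))) ≤
        #(U.filter (fun y => G.Adj x y)) +
          ∑ l : Fin k, #(U.filter (fun y => G.Adj (p l x) y)) :=
      (card_le_card hsub).trans ((card_union_le _ _).trans
        (Nat.add_le_add_left card_biUnion_le _))
    have h1 := card_nbhd G B U η h hUB hU x (hn x (hUB hx))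
    have h2 : ∀ l : Fin k, h * #(U.filter (fun y => G.Adj (p l x) y)) ≤ η * #U := fun l =>
      card_nbhd G B U η h hUB hU (p l x) (hp l x (hUB hx))
    have h3 : h * ∑ l : Fin k, #(U.filter (fun y => G.Adj (p l x) y)) ≤ k * (η * #U) := by
      rw [mul_sum]
      calc ∑ l : Fin k, h * #(U.filter (fun y => G.Adj (p l x) y))
          ≤ ∑ _l : Fin k, η * #U := sum_le_sum fun l _ => h2 l
        _ = k * (η * #U) := by simp
    calc _ ≤ (#(U.filter (fun y => G.Adj x y)) +
          ∑ l : Fin k, #(U.filter (fun y => G.Adj (p l x) y))) * h := Nat.mul_le_mul_right _ hc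
      _ = h * #(U.filter (fun y => G.Adj x y)) +
          h * ∑ l : Fin k, #(U.filter (fun y => G.Adj (p l x) y)) := by ring
      _ ≤ η * #U + k * (η * #U) := Nat.add_le_add h1 h3
      _ = (k + 1) * η * #U := by ring
  have hsize : m * (2 * d + 1) ≤ #U := by
    have h1 : 2 * h * (m * (2 * d + 1)) ≤ 2 * h * #U := by
      have h2 : 4 * m * (h * d) ≤ 4 * m * ((k + 1) * η * #U) := Nat.mul_le_mul_left _ hdh
      have h3 : 4 * ((k + 1) * η * m) * #U ≤ h * #U := Nat.mul_le_mul_right _ hh'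
      have h4 : m ≤ (k + 1) * η * m := Nat.le_mul_of_pos_left _ (Nat.mul_pos (Nat.succ_pos _) hη)
      have h5 : 2 * m ≤ #U := by omega
      have h6 : h * (2 * m) ≤ h * #U := Nat.mul_le_mul_left _ h5
      calc 2 * h * (m * (2 * d + 1)) = 4 * m * (h * d) + h * (2 * m) := by ring
        _ ≤ 4 * m * ((k + 1) * η * #U) + h * #U := Nat.add_le_add h2 h6
        _ = 4 * ((k + 1) * η * m) * #U + h * #U := by ring
        _ ≤ h * #U + h * #U := Nat.add_le_add_right h3 _
        _ = 2 * h * #U := by ring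
    exact Nat.le_of_mul_le_mul_left h1 (by omega)
  obtain ⟨W, hW1, hW2, hW3⟩ := hD V U (fun x y => G.Adj x y ∨ ∃ l, G.Adj (p l x) y) d m
    (fun x hx => by convert hout x hx) hsize
  refine ⟨W, hW1.trans hUB, hW2, fun x hx y hy hxy => ?_⟩
  have := hW3 x hx y hy hxy
  push Not at this
  exact this

end Pool.Agent.H54.HR
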